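import Pool.Agent.Y262.EX.Stm

/-!
# Project EX: existence of the geodesic flow (assembly)
-/

set_option autoImplicit false

open Set Filter Topology MeasureTheory
open scoped ContDiff ComplexConjugate Real

noncomputable section

namespace Pool.Agent.Y85.EX

open Pool.Agent.Y262.EG Pool.Agent.Y262.EX

theorem geoEx (hU : StUnif) (hE : StExt) (hS : StSmo) (hF : StFrame) : StGeoEx := by
  intro G _ Ω a φ hA hI
  have hO : IsOpen (YO Ω) := hA.opn.preimage continuous_fst
  have hX : ContDiffOn ℝ ∞ (XX φ) (YO Ω) := (hF Ω φ hA.opn hI.1).1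
  obtain ⟨ε, hε, hβ⟩ := hU G Ω a φ hA hI
  obtain ⟨Fl, h0, h1⟩ := hE (YO Ω) (XX φ) hO hX ε hε hβ
  exact ⟨Fl, { maps := fun t p hp => (h1 p hp t).1
               zero := h0
               ode := fun t p hp => (h1 p hp t).2
               smooth := hS (YO Ω) (XX φ) hO hX Fl h0 h1 }⟩

end Pool.Agent.Y85.EX
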